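import Mathlib
import Pool.Agent.H14.DecompDefs
import Pool.Agent.H14.DecompProof

set_option autoImplicit false

open MeasureTheory Set

namespace Pool.Agent.Results.MP_410e25_an.Decomposition

/-- For every `0 < A ≤ ∞`, every measurable `f ∈ R_A` is a sum `f = f_c + f_m` on `(-A, A)` with
`f_c ∈ R_A` continuous, `f_m ∈ R_A` measurable and `f_m = 0` almost everywhere. Moreover
`‖f_c‖_A ≤ ‖f‖_A`. -/
theorem result (A : EReal) (hA : 0 < A) (f : ℝ → ℂ) (hf : MemRm A f) :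
    ∃ fc fm : ℝ → ℂ, (∀ x ∈ Iv A, f x = fc x + fm x) ∧ MemRc A fc ∧ MemRm A fm ∧
      (∀ᵐ x ∂(volume : Measure ℝ), x ∈ Iv A → fm x = 0) ∧
      ∀ C : ℝ, BoundedBy A f C → BoundedBy A fc C := by
  obtain ⟨⟨C, hC⟩, hm⟩ := hf
  obtain ⟨fc, hb, hc, hae⟩ := main A hA f C hC hm
  refine ⟨fc, fun x => f x - fc x, fun x _ => by ring, ⟨⟨C, hb C hC⟩, hc⟩,
    ⟨⟨C + C, hC.sub (hb C hC)⟩, ?_⟩, ?_, hb⟩
  · have h1 : AEMeasurable f (volume.restrict (Iv A)) := hm.aemeasurable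
    have h2 : AEMeasurable fc (volume.restrict (Iv A)) := hc.aemeasurable (measurableSet_Iv A)
    exact (h1.sub h2).nullMeasurable
  · filter_upwards [hae] with x hx hxA
    rw [hx hxA, sub_self]

end Pool.Agent.Results.MP_410e25_an.Decomposition
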